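import Mathlib

open SimpleGraph Sum

namespace Pool.Agent.Results.MP_e338b6_co.Sparse

/-- `G` is `k`-critical -/
def Critical {V : Type} (k : ℕ) (G : SimpleGraph V) : Prop :=
  G.chromaticNumber = k ∧ ∀ H : G.Subgraph, H ≠ ⊤ → H.coe.chromaticNumber < k

def Col {V : Type} (G : SimpleGraph V) (c : V → Fin 9) (S : Set V) : Prop :=
  ∀ u v, G.Adj u v → u ∉ S → v ∉ S → c u ≠ c v
def CF {V : Type} (G : SimpleGraph V) : Prop := ∀ f : Fin 9 → V, ¬∀ i j, i ≠ j → G.Adj (f i) (f j)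
def Inv {V : Type} (G : SimpleGraph V) (E : (V → Fin 9) → Prop) : Prop :=
  (∀ c, Col G c ∅ → E c) ∧ (∀ v, ∃ c, Col G c {v} ∧ ¬E c) ∧ CF G

section
variable {V W : Type} (A : SimpleGraph V) (x y : V) (B : SimpleGraph (Option W)) (w : W)

def J : SimpleGraph (V ⊕ W) where
  Adj
    | inl a, inl b => A.Adj a b
    | inr a, inr b => B.Adj (some a) (some b)
    | inl a, inr b => (a = x ∧ B.Adj none (some b)) ∨ (a = y ∧ b = w)
    | inr b, inl a => (a = x ∧ B.Adj none (some b)) ∨ (a = y ∧ b = w)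
  symm := ⟨by rintro (a | a) (b | b) h <;> first | exact h | exact h.symm⟩
  loopless := ⟨by rintro (a | a) h <;> exact h.ne rfl⟩

def g : Option W → V ⊕ W := fun o => o.elim (inl x) inr

lemma cnt [Finite V] [Finite W] : (J A x y B w).edgeSet.ncard ≤ A.edgeSet.ncard + B.edgeSet.ncard + 1 := by
  have : (J A x y B w).edgeSet ⊆ (Sym2.map inl '' A.edgeSet ∪ Sym2.map (g x) '' B.edgeSet) ∪ {s(inl y, inr w)} := by
    rintro ⟨a | a, b | b⟩ h
    · exact .inl (.inl ⟨s(a, b), h, rfl⟩)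
    · rcases h with ⟨rfl, h⟩ | ⟨rfl, rfl⟩
      exacts [.inl (.inr ⟨s(none, some b), h, rfl⟩), .inr rfl]
    · rcases h with ⟨rfl, h⟩ | ⟨rfl, rfl⟩
      exacts [.inl (.inr ⟨s(some a, none), h.symm, rfl⟩), .inr Sym2.eq_swap]
    · exact .inl (.inr ⟨s(some a, some b), h, rfl⟩)
  refine (Set.ncard_le_ncard this).trans ((Set.ncard_union_le _ _).trans ?_)
  have := (Set.ncard_union_le (Sym2.map inl '' A.edgeSet) (Sym2.map (g x) '' B.edgeSet)).trans
    (add_le_add (Set.ncard_image_le) (Set.ncard_image_le))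
  simpa using this

variable {A x y B w}
lemma glue {a b S} (h1 : Col A a (inl ⁻¹' S)) (h2 : Col B b (g x ⁻¹' S)) (h3 : a x = a y ↔ b none ≠ b (some w)) :
    Col (J A x y B w) (Sum.elim a (Equiv.swap (b none) (a x) ∘ b ∘ some)) S := by
  have k : ∀ u v, (J A x y B w).Adj (inl u) (inr v) → inl u ∉ S → inr v ∉ S →
      a u ≠ Equiv.swap (b none) (a x) (b (some v)) := by
    rintro u v (⟨rfl, h⟩ | ⟨rfl, rfl⟩) p q e
    · exact h2 _ _ h p q ((Equiv.swap _ _).injective ((Equiv.swap_apply_left _ _).trans e))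
    · by_cases t : a x = a u
      · exact h3.1 t ((Equiv.swap _ _).injective ((Equiv.swap_apply_left _ _).trans (t.trans e)))
      · have := not_not.1 (mt h3.2 t)
        rw [← this, Equiv.swap_apply_left] at e
        exact t e.symm
  rintro (u | u) (v | v) h p q
  exacts [h1 _ _ h p q, k _ _ h p q, (k _ _ h q p).symm, (Equiv.swap _ _).injective.ne (h2 _ _ h p q)]

lemma mono {a S T} (h : Col A a S) (s : S ⊆ T) : Col A a T := fun u v e p q => h u v e (mt (@s u) p) (mt (@s v) q)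

lemma step (F : (W → Fin 9) → Prop) (hF : ∀ (σ : Equiv.Perm (Fin 9)) c, F (σ ∘ c) → F c)
    (hA : Inv A fun c => c x = c y) {a} (ha : Col A a ∅)
    (b1 : ∀ c, Col B c ∅ → c none = c (some w) ∨ F (c ∘ some))
    (b3 : ∃ c, Col B c ∅ ∧ c none = c (some w) ∧ ¬F (c ∘ some))
    (b4 : ∀ v, ∃ c, Col B c {some v} ∧ c none ≠ c (some w) ∧ ¬F (c ∘ some)) (b5 : CF B) :
    Inv (J A x y B w) fun c => F (c ∘ inr) := by
  have na : ¬A.Adj x y := fun h => ha _ _ h id id (hA.1 a ha)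
  have ne : x ≠ y := fun h => (hA.2.1 x).elim fun c e => e.2 (by rw [h])
  refine ⟨fun c h => ?_, ?_, fun f h => ?_⟩
  · refine (b1 (c ∘ g x) ?_).resolve_left fun e => h (inl y) (inr w) (.inr ⟨rfl, rfl⟩) id id
      ((hA.1 (c ∘ inl) fun u v e => h (inl u) (inl v) e).symm.trans e)
    rintro (_ | u) (_ | v) e p q
    exacts [(e.ne rfl).elim, h _ _ (.inl ⟨rfl, e⟩) id id, h _ _ (.inl ⟨rfl, e.symm⟩) id id, h _ _ e id id]
  · rintro (v | v)
    · obtain ⟨c, p, q⟩ := hA.2.1 v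
      obtain ⟨d, r, s, t⟩ := b3
      exact ⟨_, glue (mono p (by simp)) (mono r (by simp)) (by simp [q, s]), mt (hF _ _) t⟩
    · obtain ⟨d, r, s, t⟩ := b4 v
      exact ⟨_, glue (mono ha (by simp)) (mono r (by simp [g])) (by simp [hA.1 a ha, s]), mt (hF _ _) t⟩
  by_cases e : ∀ i, ∃ u, f i = inl u
  · choose u hu using e
    exact hA.2.2 u fun i j n => by simpa [hu, J] using h i j n
  obtain ⟨i, v, hv⟩ : ∃ i v, f i = inr v := by
    by_contra! n
    exact e fun i => by rcases hi : f i with u | u; exacts [⟨u, rfl⟩, (n i u hi).elim]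
  have : ∀ j, ∃ o, f j = g x o := fun j => by
    rcases hj : f j with u | u
    · have ij : j ≠ i := fun e => by simp [e, hv] at hj
      have p := h j i ij
      rw [hj, hv] at p
      rcases p with ⟨rfl, -⟩ | ⟨rfl, rfl⟩
      · exact ⟨none, rfl⟩
      obtain ⟨k, k1, k2⟩ := (by decide : ∀ i j : Fin 9, ∃ k, k ≠ i ∧ k ≠ j) i j
      have p := h k i k1
      have q := h k j k2
      rw [hv] at p
      rw [hj] at q
      rcases hk : f k with t | t <;> rw [hk] at p q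
      · rcases p with ⟨rfl, -⟩ | ⟨rfl, -⟩
        exacts [(na q).elim, (q.ne rfl).elim]
      · rcases q with ⟨q, -⟩ | ⟨-, rfl⟩
        exacts [(ne q.symm).elim, (p.ne rfl).elim]
    · exact ⟨some u, rfl⟩
  choose o ho using this
  refine b5 o fun i j n => ?_
  have := h i j n
  rw [ho, ho] at this
  rcases hi : o i with _ | u <;> rcases hj : o j with _ | v <;> rw [hi, hj] at this
  · exact (this.ne rfl).elim
  · exact (this.resolve_right fun e => ne e.1).2
  · exact (this.resolve_right fun e => ne e.1).2.symm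
  · exact this

lemma pig {c} (h : Col A c ∅) (f : Fin 10 → V)
    (e : ∀ i j, i ≠ j → i.1 + j.1 ≠ 1 → ¬(i.1 * j.1 = 6 ∧ i.1 + j.1 = 5) → A.Adj (f i) (f j)) :
    c (f 0) = c (f 1) ∨ c (f 2) = c (f 3) := by
  obtain ⟨i, j, n, t⟩ := Fintype.exists_ne_map_eq_of_card_lt (c ∘ f) (by simp)
  rcases (by decide : ∀ i j : Fin 10, (i = 0 ∧ j = 1 ∨ i = 1 ∧ j = 0 ∨ i = 2 ∧ j = 3 ∨ i = 3 ∧ j = 2) ∨
    i.1 + j.1 ≠ 1 ∧ ¬(i.1 * j.1 = 6 ∧ i.1 + j.1 = 5)) i j with (⟨rfl, rfl⟩ | ⟨rfl, rfl⟩ | ⟨rfl, rfl⟩ | ⟨rfl, rfl⟩) | p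
  exacts [.inl t, .inl t.symm, .inr t, .inr t.symm, (h _ _ (e i j n p.1 p.2) id id t).elim]
end

def cd {n} (o : Option (Fin n)) : ℕ := o.elim 0 (·.1 + 1)
def mk (n) (N : ℕ → ℕ → Bool) : SimpleGraph (Option (Fin n)) where
  Adj u v := u ≠ v ∧ N (cd u) (cd v) = false ∧ N (cd v) (cd u) = false
  symm := ⟨fun _ _ h => ⟨h.1.symm, h.2.2, h.2.1⟩⟩
  loopless := ⟨fun _ h => h.1 rfl⟩
instance (n N) : DecidableRel (mk n N).Adj := fun _ _ => inferInstanceAs (Decidable (_ ∧ _))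
abbrev K := mk 9 fun a b => a + b == 1 || (a == 2 && b == 3)
abbrev L := mk 11 fun a b => a + b == 1 || (7 ≤ a && (a + 2 == b || a + 3 == b))
def cl {n} (f : ℕ → ℕ) (o : Option (Fin n)) : Fin 9 := Fin.ofNat 9 (f (cd o))
lemma c0 {n N} (f) (h : ∀ u v, (mk n N).Adj u v → cl f u ≠ cl f v) : Col (mk n N) (cl f) ∅ := fun u v e _ _ => h u v e
lemma c1 {n N} (f) (o) (h : ∀ u v, (mk n N).Adj u v → u ≠ o → v ≠ o → cl f u ≠ cl f v) : Col (mk n N) (cl f) {o} := h

lemma eK : K.edgeSet.ncard = 43 := by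
  rw [← coe_edgeFinset, Set.ncard_coe_finset]; decide +kernel
lemma eL : L.edgeSet.ncard = 60 := by
  rw [← coe_edgeFinset, Set.ncard_coe_finset]; decide +kernel

def dl (d a : ℕ) : ℕ := if d ≤ 6 then (if a = d then 8 else if a < d then a else if a ≤ 7 then a - 1 else if a = 11 then 8
  else 7 - a % 2) else if a ≤ 6 then a else 7 + (a + 5 - d) % 5 % 2

lemma aL : Col L (cl fun a => if a ≤ 7 then a - 1 else if a = 11 then 8 else 7 - a % 2) ∅ := c0 _ (by decide +kernel)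

lemma iL : Inv L fun c => c none = c (some 0) := by
  refine ⟨fun c h => by_contra fun n => ?_, fun v => ⟨cl (dl (cd v)), c1 _ _ ?_, ?_⟩, fun f h => ?_⟩
  · exact h (some 6) (some 10) (by decide) id id <|
      ((pig h ![none, some 0, some 6, some 8, some 7, some 1, some 2, some 3, some 4, some 5]
        (by decide +kernel)).resolve_left n).trans
      ((pig h ![none, some 0, some 8, some 10, some 9, some 1, some 2, some 3, some 4, some 5]
        (by decide +kernel)).resolve_left n)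
  · revert v; decide +kernel
  · revert v; decide +kernel
  obtain ⟨u, p, q⟩ : ∃ u, 7 ≤ cd u ∧ ∀ i, f i = u ∨ L.Adj (f i) u := by
    by_cases e : ∃ i, 7 ≤ cd (f i)
    · obtain ⟨i, e⟩ := e
      exact ⟨f i, e, fun j => (eq_or_ne j i).imp (congrArg f) (h j i)⟩
    · exact ⟨some 6, by decide, fun i => .inr ((by decide +kernel : ∀ a, ¬7 ≤ cd a → L.Adj a (some 6)) _ fun t => e ⟨i, t⟩)⟩
  obtain ⟨i, j, n, t⟩ := Fintype.exists_ne_map_eq_of_card_lt
    (fun i => Fin.ofNat 8 (if f i = u then 7 else min (cd (f i) - 1) 6)) (by simp)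
  exact (by decide +kernel : ∀ u a b, 7 ≤ cd u → (a = u ∨ L.Adj a u) → (b = u ∨ L.Adj b u) → L.Adj a b →
    Fin.ofNat 8 (if a = u then 7 else min (cd a - 1) 6) ≠ Fin.ofNat 8 (if b = u then 7 else min (cd b - 1) 6))
    u _ _ p (q i) (q j) (h i j n) t

lemma chain (m : ℕ) : ∃ (V : Type) (_ : Fintype V) (A : SimpleGraph V) (x y : V), (Inv A fun c => c x = c y) ∧
    (∃ a, Col A a ∅) ∧ A.edgeSet.ncard + m ≤ 5 * Fintype.card V := by
  induction m with
  | zero => exact ⟨_, inferInstance, L, _, _, iL, ⟨_, aL⟩, by simp [eL]⟩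
  | succ m ih =>
    obtain ⟨V, _, A, x, y, h, ⟨a, ha⟩, e⟩ := ih
    refine ⟨_, inferInstance, J A x y K 0, inr 1, inr 2, step (fun c => c 1 = c 2) (fun σ _ e => σ.injective e) h ha
      (fun c h => pig h ![none, some 0, some 1, some 2, some 3, some 4, some 5, some 6, some 7, some 8]
        (by decide +kernel)) ⟨cl (· - 1), c0 _ (by decide +kernel), by decide⟩
      (fun v => ⟨cl fun a => if a = v + 1 then 5 else if a ≤ v then a else a - 1, c1 _ _ ?_, ?_⟩) fun f h => ?_,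
      ⟨_, glue (S := ∅) ha (c0 (fun a => if a ≤ 2 then a else a - 1) (by decide +kernel)) (by simp [h.1 a ha]; decide)⟩, ?_⟩
    · revert v; decide +kernel
    · revert v; decide +kernel
    · obtain ⟨i, j, n, t⟩ := Fintype.exists_ne_map_eq_of_card_lt
        (fun i => Fin.ofNat 8 (if cd (f i) < 4 then cd (f i) / 2 else cd (f i) - 2)) (by simp)
      exact (by decide +kernel : ∀ a b, K.Adj a b → Fin.ofNat 8 (if cd a < 4 then cd a / 2 else cd a - 2) ≠
        Fin.ofNat 8 (if cd b < 4 then cd b / 2 else cd b - 2)) _ _ (h i j n) t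
    · have := cnt A x y K 0
      simp [eK] at this ⊢
      omega

theorem result (c : ℕ) : ∃ (V : Type) (_ : Fintype V) (G : SimpleGraph V), Critical 10 G ∧ G.CliqueFree 9 ∧
    G.edgeSet.ncard + c ≤ 5 * Fintype.card V := by
  classical
  obtain ⟨V, _, A, x, y, h, ⟨a, ha⟩, e⟩ := chain (c + 6)
  obtain ⟨p, q, r⟩ := step (B := L) (w := 0) (fun _ => False) (fun _ _ => id) h ha (fun c h => .inl (iL.1 c h))
    ⟨_, aL, iL.1 _ aL, id⟩ (fun v => (iL.2.1 (some v)).imp fun c h => ⟨h.1, h.2, id⟩) iL.2.2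
  have t := cnt A x y L 0
  generalize J A x y L 0 = G at *
  obtain ⟨H, ⟨h1, h2⟩, h3⟩ := wellFounded_lt.has_min {H | H ≤ G ∧ ¬H.Colorable 9}
    ⟨G, le_rfl, fun ⟨C⟩ => p C fun u v e _ _ => C.valid e⟩
  refine ⟨_, inferInstance, H, ⟨?_, fun S hS => ?_⟩, ?_, ?_⟩
  · obtain ⟨d, hd, -⟩ := q (inl x)
    refine le_antisymm (Colorable.chromaticNumber_le ⟨.mk (fun v => if v = inl x then Fin.last 9 else (d v).castSucc)
      fun {u v} e => ?_⟩) (Order.add_one_le_of_lt (not_le.1 (mt (chromaticNumber_le_iff_colorable (n := 9)).1 h2)))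
    have := e.ne
    split_ifs with i j j
    exacts [(this (i.trans j.symm)).elim, (Fin.castSucc_ne_last _).symm, Fin.castSucc_ne_last _,
      (Fin.castSucc_injective _).ne (hd _ _ (h1 e) i j)]
  · refine lt_of_le_of_lt (Colorable.chromaticNumber_le (n := 9) ?_) (by norm_cast)
    by_cases s : ∀ v, v ∈ S.verts
    · have : S.spanningCoe.Colorable 9 := by_contra fun n => h3 _ ⟨S.spanningCoe_le.trans h1, n⟩
        (lt_of_le_of_ne S.spanningCoe_le fun e => hS (Subgraph.ext (Set.eq_univ_of_forall s) (congrArg Adj e)))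
      exact this.elim fun C => ⟨.mk (fun v => C v.1) fun e => C.valid e⟩
    · obtain ⟨v, s⟩ := not_forall.1 s
      obtain ⟨d, hd, -⟩ := q v
      exact ⟨.mk (fun u => d u.1) fun {a b} e => hd _ _ (h1 (S.adj_sub e)) (fun i => s (i ▸ a.2)) fun i => s (i ▸ b.2)⟩
  · by_contra n
    obtain ⟨f⟩ := (not_cliqueFree_iff_top_isContained 9).1 n
    exact r f fun i j e => h1 (f.toHom.map_adj e)
  · have := Set.ncard_le_ncard (edgeSet_mono h1)
    simp [eL] at t ⊢
    omega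

end Pool.Agent.Results.MP_e338b6_co.Sparse
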